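import Mathlib
import Pool.Agent.V11255.MED3

/-!
# A closed maximal eventually different family of permutations (MP_6a83a4, Q1)

There is a set `F ⊆ ω^ω` of permutations of `ω`, closed in Baire space, which is eventually
different and such that every permutation of `ω` agrees with a member of `F` at infinitely many
arguments.

The proof (in `Pool.Agent.V11255.MED1`, `MED2`, `MED3`) is self-contained.  Every parameter
`q : ℕ → ℕ⁵` codes a permutation `h_q`: on a set `B_q` of coded arguments `h_q` copies the function
coded by `q`, everywhere else each pair of `h_q` is coded, the larger number being a code of the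
smaller number `m` and of `q ↾ (m + 1)`.  `q ↦ h_q` is a continuous injection with a continuous
left inverse defined on all of `ω^ω`, so its range is closed.
-/

set_option autoImplicit false

open Set

namespace Pool.Agent.Results.MP_6a83a4_lc.ClosedFamily

/-- Q1, affirmatively: there is a closed maximal eventually different family of permutations. -/
theorem result : ∃ F : Set (ℕ → ℕ), IsClosed F ∧ (∀ f ∈ F, Function.Bijective f) ∧
    (∀ f ∈ F, ∀ g ∈ F, f ≠ g → {n | f n = g n}.Finite) ∧
    (∀ g : ℕ → ℕ, Function.Bijective g → ∃ f ∈ F, {n | f n = g n}.Infinite) := by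
  refine ⟨Set.range fun q : ℕ → V11255.MED.E => (fun n => V11255.MED.H q true n),
    V11255.MED.isClosed_range, ?_, ?_, ?_⟩
  · rintro _ ⟨q, rfl⟩
    exact (V11255.MED.perm q).bijective
  · rintro _ ⟨q, rfl⟩ _ ⟨r, rfl⟩ hne
    refine V11255.MED.ed fun h => hne ?_
    rw [h]
  · intro g hg
    obtain ⟨q, hq⟩ := V11255.MED.catch_perm (Equiv.ofBijective g hg)
    exact ⟨_, ⟨q, rfl⟩, hq⟩

end Pool.Agent.Results.MP_6a83a4_lc.ClosedFamily
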